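import Mathlib
import Pool.Agent.H69.Forcing

set_option autoImplicit false

namespace Pool.Agent.Results.MP_b0cea1_an.ForcingThin

open MeasureTheory Metric Set Filter Topology
open Pool.Agent.H69.Forcing

lemma near_of_hyp' {z w : ℂ} {S : ℝ} (hS : 0 < S) (hz : 0 < z.im) (hw : 0 < w.im)
    (h : ‖z - w‖ / (2 * √(z.im * w.im)) < S) :
    ‖z - w‖ < 4 * (1 + S ^ 2) * w.im ∧ w.im < 2 * (1 + 2 * S ^ 2) * z.im := by
  have hs : 0 < √(z.im * w.im) := Real.sqrt_pos.2 (by positivity)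
  have hsq : √(z.im * w.im) ^ 2 = z.im * w.im := Real.sq_sqrt (by positivity)
  rw [div_lt_iff₀ (by positivity)] at h
  have h2 : ‖z - w‖ < 2 * S * √(z.im * w.im) := by linarith
  have h3 : |z.im - w.im| ≤ ‖z - w‖ := by simpa using Complex.abs_im_le_norm (z - w)
  have h4 : ∀ u v : ℝ, 0 < u → 0 < v → √(z.im * w.im) ^ 2 = u * v →
      u - v < 2 * S * √(z.im * w.im) → u < 2 * (1 + 2 * S ^ 2) * v := by
    intro u v hu hv huv hlt
    have e1 : 2 * S * √(z.im * w.im) ≤ u / 2 + 2 * S ^ 2 * v := by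
      have e2 : (2 * S * √(z.im * w.im)) ^ 2 ≤ (u / 2 + 2 * S ^ 2 * v) ^ 2 := by
        have : (2 * S * √(z.im * w.im)) ^ 2 = 4 * S ^ 2 * (u * v) := by
          calc (2 * S * √(z.im * w.im)) ^ 2 = 4 * S ^ 2 * √(z.im * w.im) ^ 2 := by ring
            _ = 4 * S ^ 2 * (u * v) := by rw [huv]
        rw [this]
        nlinarith [sq_nonneg (u / 2 - 2 * S ^ 2 * v)]
      exact le_of_sq_le_sq e2 (by positivity)
    nlinarith
  have h5 : z.im < 2 * (1 + 2 * S ^ 2) * w.im :=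
    h4 z.im w.im hz hw hsq ((le_abs_self _).trans_lt (h3.trans_lt h2))
  have h6 : w.im < 2 * (1 + 2 * S ^ 2) * z.im := by
    apply h4 w.im z.im hw hz (by rw [hsq]; ring)
    have : w.im - z.im ≤ |z.im - w.im| := by rw [abs_sub_comm]; exact le_abs_self _
    linarith
  refine ⟨h2.trans_le ?_, h6⟩
  have e3 : (2 * S * √(z.im * w.im)) ^ 2 ≤ (4 * (1 + S ^ 2) * w.im) ^ 2 := by
    have : (2 * S * √(z.im * w.im)) ^ 2 = 4 * S ^ 2 * (z.im * w.im) := by
      calc (2 * S * √(z.im * w.im)) ^ 2 = 4 * S ^ 2 * √(z.im * w.im) ^ 2 := by ring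
        _ = 4 * S ^ 2 * (z.im * w.im) := by rw [hsq]
    rw [this]
    have e4 : 4 * S ^ 2 * (z.im * w.im) ≤ 4 * S ^ 2 * (2 * (1 + 2 * S ^ 2) * w.im * w.im) := by
      gcongr
    refine e4.trans ?_
    have e5 : 0 ≤ w.im ^ 2 := sq_nonneg _
    have e6 : 4 * S ^ 2 * (2 * (1 + 2 * S ^ 2)) ≤ (4 * (1 + S ^ 2)) ^ 2 := by nlinarith [sq_nonneg S]
    nlinarith
  exact le_of_sq_le_sq e3 (by positivity)

lemma ht_antitone : Antitone ht := by
  apply antitone_nat_of_succ_le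
  intro n
  unfold ht
  have h1 : ((1:ℝ) / 2) ^ (n + 1) ≤ (1 / 2) ^ n :=
    pow_le_pow_of_le_one (by norm_num) (by norm_num) (Nat.le_succ n)
  have h2 : (2:ℝ) ^ (2 * n) ≤ 2 ^ (2 * (n + 1)) := pow_le_pow_right₀ (by norm_num) (by omega)
  have h3 : (2:ℝ) ^ (2 ^ n) ≤ 2 ^ (2 ^ (n + 1)) :=
    pow_le_pow_right₀ (by norm_num) (Nat.pow_le_pow_right (by norm_num) (Nat.le_succ n))
  gcongr

/-- The radial projection of the hyperbolic `l`-neighbourhood of `E`. -/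
def radialProjection (E : Set ℂ) (l : ℝ) : Set ℝ :=
  (fun z : ℂ => ‖z‖) '' {z : ℂ | 0 < z.im ∧ ∃ w ∈ E,
    2 * Real.arsinh (‖z - w‖ / (2 * √(z.im * w.im))) < l}

/-- Forcing sets. -/
def IsForcing (E : Set ℂ) : Prop :=
  ∀ f : ℂ → ℂ, DifferentiableOn ℂ f {z : ℂ | 0 < z.im} → InjOn f {z : ℂ | 0 < z.im} →
    MapsTo f {z : ℂ | 0 < z.im} (ball (0 : ℂ) 1) →
    ∀ α : ℂ, Tendsto f (𝓝[E] 0) (𝓝 α) →
      ∀ θ : ℝ, 0 < θ → θ < Real.pi / 2 →
        Tendsto f (𝓝[{z : ℂ | z ≠ 0 ∧ θ ≤ z.arg ∧ z.arg ≤ Real.pi - θ}] 0) (𝓝 α)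

lemma exists_bound (l : ℝ) (hl : 0 < l) : ∃ C δ : ℝ, 0 < C ∧ 0 < δ ∧ ∀ r : ℝ, 0 < r → r < δ →
    volume (radialProjection K l ∩ Ioo 0 r) ≤ ENNReal.ofReal (C * r ^ 2) := by
  set S : ℝ := Real.sinh (l / 2) with hSdef
  have hS : 0 < S := Real.sinh_pos_iff.2 (by positivity)
  set M : ℝ := 4 * (1 + S ^ 2) with hM
  have hM0 : 0 < M := by positivity
  -- beyond `N` the neighbourhoods are short compared with the modulus
  obtain ⟨N, hN⟩ : ∃ N : ℕ, ∀ n, N ≤ n → M * ht n ≤ (1 / 2) ^ n / 2 := by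
    have hl1 : Tendsto (fun n : ℕ => M * ((1:ℝ) / 2) ^ n) atTop (𝓝 (M * 0)) :=
      (tendsto_pow_atTop_nhds_zero_of_lt_one (by norm_num) (by norm_num)).const_mul M
    rw [mul_zero] at hl1
    obtain ⟨N, hN⟩ := (hl1.eventually_lt_const (show (0:ℝ) < 1 / 2 by norm_num)).exists_forall_of_atTop
    refine ⟨N, fun n hn => ?_⟩
    have h1 := hN n hn
    have h2 : ht n ≤ (1 / 2) ^ n * (1 / 2) ^ n := by
      have h3 := ht_le n
      have h4 : (1:ℝ) ≤ 2 ^ (2 * n) := one_le_pow₀ (by norm_num)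
      have h5 : ((1:ℝ) / 4) ^ n = (1 / 2) ^ n * (1 / 2) ^ n := by rw [← mul_pow]; norm_num
      rw [h5] at h3
      have h6 := ht_pos n
      nlinarith
    have h7 : (0:ℝ) < (1 / 2) ^ n := by positivity
    calc M * ht n ≤ M * ((1 / 2) ^ n * (1 / 2) ^ n) := by gcongr
      _ = (M * (1 / 2) ^ n) * (1 / 2) ^ n := by ring
      _ ≤ 1 / 2 * (1 / 2) ^ n := by gcongr
      _ = (1 / 2) ^ n / 2 := by ring
  refine ⟨6 * M, min (1 / 2) (ht N / (2 * (1 + 2 * S ^ 2))), by positivity,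
    lt_min (by norm_num) (div_pos (ht_pos N) (by positivity)), ?_⟩
  intro r hr0 hrδ
  have hr1 : r < 1 / 2 := hrδ.trans_le (min_le_left _ _)
  have hr2 : r < ht N / (2 * (1 + 2 * S ^ 2)) := hrδ.trans_le (min_le_right _ _)
  obtain ⟨n0, hn1, hn2⟩ := exists_nat_pow_near_of_lt_one (show 0 < 2 * r by linarith)
    (show 2 * r ≤ 1 by linarith) (y := (1:ℝ) / 2) (by norm_num) (by norm_num)
  have hsub : radialProjection K l ∩ Ioo 0 r ⊆
      ⋃ j : ℕ, ⋃ k ∈ Finset.range (2 ^ (2 * (n0 + 1 + j))),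
      Ioo (‖kpt (n0 + 1 + j) k‖ - M * ht (n0 + 1 + j)) (‖kpt (n0 + 1 + j) k‖ + M * ht (n0 + 1 + j)) := by
    rintro t ⟨⟨z, ⟨hz, w, ⟨n, k, hk, rfl⟩, hzw⟩, rfl⟩, ht0, htr⟩
    have hwim : 0 < (kpt n k).im := by rw [kpt_im]; exact ht_pos n
    have hlt : ‖z - kpt n k‖ / (2 * √(z.im * (kpt n k).im)) < S := by
      have e1 : Real.arsinh (‖z - kpt n k‖ / (2 * √(z.im * (kpt n k).im))) < l / 2 := by linarith
      rw [← Real.arsinh_lt_arsinh, hSdef, Real.arsinh_sinh]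
      exact e1
    obtain ⟨h1, h1'⟩ := near_of_hyp' hS hz hwim hlt
    rw [kpt_im] at h1 h1'
    have htr' : ‖z‖ < r := htr
    have hzim : z.im ≤ ‖z‖ := Complex.im_le_norm z
    have hnN : N ≤ n := by
      by_contra hc
      have e1 : ht N ≤ ht n := ht_antitone (by omega)
      rw [lt_div_iff₀ (by positivity)] at hr2
      have e2 : 2 * (1 + 2 * S ^ 2) * z.im ≤ 2 * (1 + 2 * S ^ 2) * r := by
        gcongr
        linarith
      linarith
    have h2 : |‖z‖ - ‖kpt n k‖| < M * ht n := (abs_norm_sub_norm_le _ _).trans_lt h1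
    rw [abs_lt] at h2
    have h3 : (1 / 2) ^ n ≤ ‖kpt n k‖ := by
      have h4 : (kpt n k).re ≤ ‖kpt n k‖ := Complex.re_le_norm _
      have h5 : (1 / 2) ^ n ≤ (kpt n k).re := by
        simp only [kpt]
        have e1 : (0:ℝ) ≤ k * ((1 / 2) ^ n / 2 ^ (2 * n)) := by positivity
        have e2 : (0:ℝ) ≤ (1 / 2) ^ n / 2 ^ (2 * n) / 2 := by positivity
        linarith
      linarith
    have h6 := hN n hnN
    have h7 : ((1:ℝ) / 2) ^ n < 2 * r := by linarith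
    have h8 : n0 + 1 ≤ n := by
      by_contra hc
      have : n ≤ n0 := by omega
      have h9 : ((1:ℝ) / 2) ^ n0 ≤ (1 / 2) ^ n :=
        pow_le_pow_of_le_one (by norm_num) (by norm_num) this
      linarith
    obtain ⟨j, rfl⟩ := Nat.exists_eq_add_of_le h8
    rw [mem_iUnion]
    refine ⟨j, ?_⟩
    rw [mem_iUnion₂]
    refine ⟨k, Finset.mem_range.2 hk, ?_⟩
    constructor
    · change _ < ‖z‖
      linarith
    · change ‖z‖ < _
      linarith
  have hq : ((1:ℝ) / 4) ^ (n0 + 1) ≤ (2 * r) ^ 2 := by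
    have e1 : ((1:ℝ) / 4) ^ (n0 + 1) = ((1 / 2) ^ (n0 + 1)) ^ 2 := by
      rw [← pow_mul, mul_comm, pow_mul]; norm_num
    rw [e1]
    gcongr
  calc volume (radialProjection K l ∩ Ioo 0 r)
      ≤ volume (⋃ j : ℕ, ⋃ k ∈ Finset.range (2 ^ (2 * (n0 + 1 + j))),
      Ioo (‖kpt (n0 + 1 + j) k‖ - M * ht (n0 + 1 + j))
        (‖kpt (n0 + 1 + j) k‖ + M * ht (n0 + 1 + j))) := measure_mono hsub
    _ ≤ ∑' j : ℕ, volume (⋃ k ∈ Finset.range (2 ^ (2 * (n0 + 1 + j))),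
      Ioo (‖kpt (n0 + 1 + j) k‖ - M * ht (n0 + 1 + j))
        (‖kpt (n0 + 1 + j) k‖ + M * ht (n0 + 1 + j))) := measure_iUnion_le _
    _ ≤ ∑' j : ℕ, ENNReal.ofReal (M * (1 / 4) ^ (n0 + 1) * (1 / 4) ^ j) := by
      apply ENNReal.tsum_le_tsum
      intro j
      refine (measure_biUnion_finset_le _ _).trans ?_
      simp only [Real.volume_Ioo]
      have e1 : ∀ k : ℕ, ‖kpt (n0 + 1 + j) k‖ + M * ht (n0 + 1 + j) -
          (‖kpt (n0 + 1 + j) k‖ - M * ht (n0 + 1 + j)) = 2 * M * ht (n0 + 1 + j) := by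
        intro k; ring
      simp only [e1]
      rw [Finset.sum_const, Finset.card_range, nsmul_eq_mul, ← ENNReal.ofReal_natCast,
        ← ENNReal.ofReal_mul (by positivity)]
      apply ENNReal.ofReal_le_ofReal
      have e2 := ht_le (n0 + 1 + j)
      push_cast
      rw [pow_add (1 / 4 : ℝ)] at e2
      have e3 := mul_le_mul_of_nonneg_left e2 hM0.le
      linarith
    _ = ENNReal.ofReal (∑' j : ℕ, M * (1 / 4) ^ (n0 + 1) * (1 / 4) ^ j) := by
      rw [ENNReal.ofReal_tsum_of_nonneg]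
      · intro j; positivity
      · apply Summable.mul_left
        exact summable_geometric_of_lt_one (by norm_num) (by norm_num)
    _ ≤ ENNReal.ofReal (6 * M * r ^ 2) := by
      apply ENNReal.ofReal_le_ofReal
      rw [tsum_mul_left, tsum_geometric_of_lt_one (by norm_num) (by norm_num)]
      have e4 := mul_le_mul_of_nonneg_left hq hM0.le
      nlinarith

/-- There is a forcing set whose hyperbolic neighbourhoods, of every radius, have radial projection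
of vanishing density at `0`. -/
theorem result :
    ∃ E : Set ℂ, E ⊆ {z : ℂ | 0 < z.im} ∧ IsForcing E ∧
      ∀ l : ℝ, 0 < l →
        Tendsto (fun r : ℝ => (volume (radialProjection E l ∩ Ioo 0 r)).toReal / r)
          (𝓝[>] 0) (𝓝 0) := by
  refine ⟨K, K_subset, fun f hf hinj hmaps α hlim θ hθ0 hθ1 =>
    forcing hf hinj hmaps hlim hθ0 hθ1, fun l hl => ?_⟩
  obtain ⟨C, δ, hC, hδ, hb⟩ := exists_bound l hl
  have h1 : Tendsto (fun r : ℝ => C * r) (𝓝[>] 0) (𝓝 0) := by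
    have : Tendsto (fun r : ℝ => C * r) (𝓝 0) (𝓝 (C * 0)) := tendsto_id.const_mul C
    rw [mul_zero] at this
    exact this.mono_left nhdsWithin_le_nhds
  apply squeeze_zero' _ _ h1
  · filter_upwards [self_mem_nhdsWithin] with r hr
    exact div_nonneg ENNReal.toReal_nonneg (le_of_lt hr)
  · filter_upwards [Ioo_mem_nhdsGT hδ] with r hr
    have h3 := ENNReal.toReal_mono ENNReal.ofReal_ne_top (hb r hr.1 hr.2)
    rw [ENNReal.toReal_ofReal (by have := hr.1; positivity)] at h3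
    rw [div_le_iff₀ hr.1]
    linarith

end Pool.Agent.Results.MP_b0cea1_an.ForcingThin
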